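import Mathlib

/-!
# MP_2e9c83 : every universal BPBp-RSE domain is a universal BPBp-ASE domain

Given a Banach space `Z`, apply the BPBp-RSE of the pair `(X, Z ⊕_∞ X)` to the operator
`x ↦ (T x, x / 2)`.  The approximating RSE operator `S = (S₁, S₂)` is bounded below, hence ASE, and
`‖S₂‖ < 1`, so the first coordinate `S₁` attains its norm at the same point and is itself ASE.
-/

namespace Pool.Agent.Results.MP_2e9c83_an.UniversalDomains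

open Filter Topology

universe u

section defs

variable {𝕜 : Type} [RCLike 𝕜] {X Y : Type u} [NormedAddCommGroup X] [NormedSpace 𝕜 X]
  [NormedAddCommGroup Y] [NormedSpace 𝕜 Y]

/-- `T` is absolutely strongly exposing. -/
def ASE (T : X →L[𝕜] Y) : Prop :=
  ∃ x₀ : X, ‖x₀‖ = 1 ∧ ∀ x : ℕ → X, (∀ n, ‖x n‖ ≤ 1) →
    Tendsto (fun n => ‖T (x n)‖) atTop (𝓝 ‖T‖) →
    ∃ σ : ℕ → ℕ, StrictMono σ ∧ ∃ c : 𝕜, ‖c‖ = 1 ∧
      Tendsto (fun n => x (σ n)) atTop (𝓝 (c • x₀))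

/-- `T` is range strongly exposing. -/
def RSE (T : X →L[𝕜] Y) : Prop :=
  ∃ x₀ : X, ‖x₀‖ = 1 ∧ ∀ x : ℕ → X, (∀ n, ‖x n‖ ≤ 1) →
    Tendsto (fun n => ‖T (x n)‖) atTop (𝓝 ‖T‖) →
    ∃ σ : ℕ → ℕ, StrictMono σ ∧ ∃ c : 𝕜, ‖c‖ = 1 ∧
      Tendsto (fun n => T (x (σ n))) atTop (𝓝 (c • T x₀))

variable (𝕜 X Y)

/-- The pair `(X, Y)` has the BPBp-RSE. -/
def BPBpRSE : Prop :=
  ∀ ε : ℝ, 0 < ε → ∃ η : ℝ, 0 < η ∧ η < ε ∧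
    ∀ (T : X →L[𝕜] Y) (x : X), ‖T‖ = 1 → ‖x‖ = 1 → 1 - η < ‖T x‖ →
      ∃ (S : X →L[𝕜] Y) (x₀ : X), RSE S ∧ ‖x₀‖ = 1 ∧ ‖S‖ = 1 ∧ ‖S x₀‖ = 1 ∧
        ‖S - T‖ < ε ∧ ‖x - x₀‖ < ε

/-- The pair `(X, Y)` has the BPBp-ASE. -/
def BPBpASE : Prop :=
  ∀ ε : ℝ, 0 < ε → ∃ η : ℝ, 0 < η ∧ η < ε ∧
    ∀ (T : X →L[𝕜] Y) (x : X), ‖T‖ = 1 → ‖x‖ = 1 → 1 - η < ‖T x‖ →
      ∃ (S : X →L[𝕜] Y) (x₀ : X), ASE S ∧ ‖x₀‖ = 1 ∧ ‖S‖ = 1 ∧ ‖S x₀‖ = 1 ∧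
        ‖S - T‖ < ε ∧ ‖x - x₀‖ < ε

end defs

section univ

variable (𝕜 : Type) [RCLike 𝕜] (X : Type u) [NormedAddCommGroup X] [NormedSpace 𝕜 X]

/-- `X` is a universal BPBp-RSE domain. -/
def UniversalRSE : Prop :=
  ∀ (Z : Type u) [NormedAddCommGroup Z] [NormedSpace 𝕜 Z] [CompleteSpace Z], BPBpRSE 𝕜 X Z

/-- `X` is a universal BPBp-ASE domain. -/
def UniversalASE : Prop :=
  ∀ (Z : Type u) [NormedAddCommGroup Z] [NormedSpace 𝕜 Z] [CompleteSpace Z], BPBpASE 𝕜 X Z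

end univ

section proof

variable {𝕜 : Type} [RCLike 𝕜] {X Z : Type u} [NormedAddCommGroup X] [NormedSpace 𝕜 X]
  [NormedAddCommGroup Z] [NormedSpace 𝕜 Z]

/-- If `(X, Z ⊕_∞ X)` has the BPBp-RSE then `(X, Z)` has the BPBp-ASE. -/
theorem bpbpASE_of_prod (h : BPBpRSE 𝕜 X (Z × X)) : BPBpASE 𝕜 X Z := by
  intro ε hε
  obtain ⟨η, hη, hηε, H⟩ := h (min ε (1 / 8)) (lt_min hε (by norm_num))
  refine ⟨η, hη, hηε.trans_le (min_le_left _ _), fun T x hT hx hTx => ?_⟩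
  set T' : X →L[𝕜] (Z × X) := T.prod ((2⁻¹ : 𝕜) • ContinuousLinearMap.id 𝕜 X) with hT'
  have h2 : ‖(2⁻¹ : 𝕜)‖ = 1 / 2 := by rw [norm_inv, RCLike.norm_ofNat]; norm_num
  have hT'a : ∀ y, T' y = (T y, (2⁻¹ : 𝕜) • y) := fun y => rfl
  have hT'n : ∀ y, ‖T' y‖ = max ‖T y‖ (1 / 2 * ‖y‖) := by
    intro y; rw [hT'a, Prod.norm_mk, norm_smul, h2]
  have hT'le : ‖T'‖ ≤ 1 := by
    refine ContinuousLinearMap.opNorm_le_bound _ zero_le_one fun y => ?_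
    rw [hT'n]
    refine max_le ?_ ?_
    · calc ‖T y‖ ≤ ‖T‖ * ‖y‖ := T.le_opNorm y
        _ = 1 * ‖y‖ := by rw [hT]
    · have := norm_nonneg y
      linarith
  have hT'1 : ‖T'‖ = 1 := by
    refine le_antisymm hT'le ?_
    rw [← hT]
    refine ContinuousLinearMap.opNorm_le_bound _ (norm_nonneg _) fun y => ?_
    calc ‖T y‖ ≤ ‖T' y‖ := by rw [hT'n]; exact le_max_left _ _
      _ ≤ ‖T'‖ * ‖y‖ := T'.le_opNorm y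
  obtain ⟨S, x₀, hS, hx₀, hSn, hSx, hST, hxx⟩ :=
    H T' x hT'1 hx (hTx.trans_le (by rw [hT'n]; exact le_max_left _ _))
  have hST8 : ‖S - T'‖ < 1 / 8 := hST.trans_le (min_le_right _ _)
  -- the two coordinates of `S`
  set S₁ : X →L[𝕜] Z := (ContinuousLinearMap.fst 𝕜 Z X).comp S with hS₁
  have hS₁a : ∀ y, S₁ y = (S y).1 := fun y => rfl
  have hS₁le : ∀ y, ‖S₁ y‖ ≤ ‖S y‖ := fun y => by rw [hS₁a]; exact norm_fst_le _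
  have hdiff : ∀ y, ‖(S y).2 - (2⁻¹ : 𝕜) • y‖ ≤ 1 / 8 * ‖y‖ := by
    intro y
    have h3 : (S y).2 - (2⁻¹ : 𝕜) • y = ((S - T') y).2 := by
      rw [sub_apply, hT'a, Prod.snd_sub]
    rw [h3]
    calc ‖((S - T') y).2‖ ≤ ‖(S - T') y‖ := norm_snd_le _
      _ ≤ ‖S - T'‖ * ‖y‖ := (S - T').le_opNorm y
      _ ≤ 1 / 8 * ‖y‖ := by gcongr
  have hS₂le : ∀ y, ‖(S y).2‖ ≤ 5 / 8 * ‖y‖ := by
    intro y
    have h4 : ‖(S y).2‖ ≤ ‖(S y).2 - (2⁻¹ : 𝕜) • y‖ + ‖(2⁻¹ : 𝕜) • y‖ := by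
      simpa using norm_add_le ((S y).2 - (2⁻¹ : 𝕜) • y) ((2⁻¹ : 𝕜) • y)
    rw [norm_smul, h2] at h4
    linarith [hdiff y]
  have hS₂ge : ∀ y, 3 / 8 * ‖y‖ ≤ ‖S y‖ := by
    intro y
    have h4 : ‖(2⁻¹ : 𝕜) • y‖ ≤ ‖(S y).2‖ + ‖(S y).2 - (2⁻¹ : 𝕜) • y‖ := by
      have := norm_sub_le (S y).2 ((S y).2 - (2⁻¹ : 𝕜) • y)
      simpa using this
    rw [norm_smul, h2] at h4
    have h5 := hdiff y
    have h6 : ‖(S y).2‖ ≤ ‖S y‖ := norm_snd_le _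
    linarith
  have hS₁x : ‖S₁ x₀‖ = 1 := by
    have h4 : ‖S x₀‖ = max ‖(S x₀).1‖ ‖(S x₀).2‖ := rfl
    have h5 := hS₂le x₀
    rw [hx₀, mul_one] at h5
    rw [hSx] at h4
    rw [hS₁a]
    rcases max_choice ‖(S x₀).1‖ ‖(S x₀).2‖ with h6 | h6
    · rw [h6] at h4; exact h4.symm
    · rw [h6] at h4; linarith
  have hS₁n : ‖S₁‖ = 1 := by
    refine le_antisymm ?_ ?_
    · refine ContinuousLinearMap.opNorm_le_bound _ zero_le_one fun y => ?_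
      calc ‖S₁ y‖ ≤ ‖S y‖ := hS₁le y
        _ ≤ ‖S‖ * ‖y‖ := S.le_opNorm y
        _ = 1 * ‖y‖ := by rw [hSn]
    · rw [← hS₁x]
      calc ‖S₁ x₀‖ ≤ ‖S₁‖ * ‖x₀‖ := S₁.le_opNorm x₀
        _ = ‖S₁‖ := by rw [hx₀, mul_one]
  refine ⟨S₁, x₀, ?_, hx₀, hS₁n, hS₁x, ?_, hxx.trans_le (min_le_left _ _)⟩
  · obtain ⟨x₁, hx₁, hR⟩ := hS
    refine ⟨x₁, hx₁, fun y hy hyS => ?_⟩
    have hyS' : Tendsto (fun n => ‖S (y n)‖) atTop (𝓝 ‖S‖) := by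
      rw [hS₁n] at hyS
      rw [hSn]
      refine tendsto_of_tendsto_of_tendsto_of_le_of_le hyS tendsto_const_nhds
        (fun n => hS₁le (y n)) (fun n => ?_)
      calc ‖S (y n)‖ ≤ ‖S‖ * ‖y n‖ := S.le_opNorm _
        _ ≤ 1 * 1 := by rw [hSn]; gcongr; exact hy n
        _ = 1 := one_mul _
    obtain ⟨σ, hσ, c, hc, hlim⟩ := hR y hy hyS'
    refine ⟨σ, hσ, c, hc, ?_⟩
    rw [tendsto_iff_norm_sub_tendsto_zero] at hlim ⊢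
    have h7 : ∀ n, ‖y (σ n) - c • x₁‖ ≤ 8 / 3 * ‖S (y (σ n)) - c • S x₁‖ := by
      intro n
      have h8 := hS₂ge (y (σ n) - c • x₁)
      rw [map_sub, map_smul] at h8
      linarith
    have h9 : Tendsto (fun n => 8 / 3 * ‖S (y (σ n)) - c • S x₁‖) atTop (𝓝 0) := by
      simpa using hlim.const_mul (8 / 3 : ℝ)
    exact squeeze_zero (fun n => norm_nonneg _) h7 h9
  · have h3 : S₁ - T = (ContinuousLinearMap.fst 𝕜 Z X).comp (S - T') := by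
      ext y; rfl
    rw [h3]
    refine lt_of_le_of_lt ?_ (hST.trans_le (min_le_left _ _))
    refine ContinuousLinearMap.opNorm_le_bound _ (norm_nonneg _) fun y => ?_
    calc ‖((ContinuousLinearMap.fst 𝕜 Z X).comp (S - T')) y‖ ≤ ‖(S - T') y‖ := norm_fst_le ((S - T') y)
      _ ≤ ‖S - T'‖ * ‖y‖ := (S - T').le_opNorm y

end proof

theorem result (𝕜 : Type) [RCLike 𝕜] (X : Type u) [NormedAddCommGroup X] [NormedSpace 𝕜 X]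
    [CompleteSpace X] (h : UniversalRSE 𝕜 X) : UniversalASE 𝕜 X := by
  intro Z _ _ _
  exact bpbpASE_of_prod (h (Z × X))

end Pool.Agent.Results.MP_2e9c83_an.UniversalDomains
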